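import Pool.Agent.V11235.SJ.Set
import Pool.Agent.TH377.LocG.Res

/-!
# Degrees of the fields with birational sections for 100% of all superelliptic curves

Let `k` be any field finitely generated over `ℚ`, that is, the fraction field of a domain `R` of
characteristic zero that is finitely generated as a ring.  Let `d ≥ 3`, and for
`(a, c₀, …, c_d) ∈ R^(d+2)` consider the superelliptic curves

  `C_n : a yⁿ = c₀ + c₁ x + … + c_d x^d`;

all coefficients vary.  Put `D₀ = d` if `d` is odd and `D₀ = d/2` if `d` is even.  We prove that for
100% of the vectors `(a, c₀, …, c_d)` the polynomial is irreducible of degree `d` and we have for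
**all** finite extensions `k'` of `k` and all `n` divisible by `D₀`: if `C_n` has a point over `k'`, or
if the absolute Galois group of its function field over `k'` has a section over `G_k'`, or if the
fundamental group of `C_n`, of an open subcurve, or of a smooth curve over `k'` that dominates `C_n` has
a section, then `D₀` divides `[k' : k]`.  More generally, for all `D ≥ 1` with `D ∣ d` (`D` odd) or
`2 D ∣ d` (`D` even), all `k'` with `D ∤ [k' : k]` and all `n` divisible by `D`, the curve `C_n` has
neither points nor sections over `k'`; already a very small quotient of the absolute Galois group has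
no section over `G_k'`: the one that belongs to the field generated by `k̄` and the roots of order `D`
of the functions `(x - ρ)/(x - ρ')`, where `ρ`, `ρ'` are roots of the polynomial.

In particular 100% of these curves satisfy the birational section conjecture over all `k'` with
`D ∤ [k' : k]` at once.  For odd `d` the result is best possible: the curves have points over the fields
of degree `d` generated by a root of the polynomial, so for 100% of the curves `a yⁿ = f(x)`,
`deg f = d` odd, `d ∣ n`, the greatest common divisor of the degrees of the fields with points, and that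
of the degrees of the fields with birational sections, are both `d`.

The set of the exceptional vectors has density zero in a strong sense: for every `ε > 0` there is an
ideal `I` of `R` of finite index such that the exceptional vectors lie in at most `ε #(R/I)^(d+2)`
residue classes modulo `I`.

The fundamental group is described through valuations.  Let `U` be a smooth geometrically connected
curve over `k` with function field `F`, let `Ω` be an algebraic closure of `F`, and let `F_U` be the
maximal extension of `F` inside `Ω` which is unramified over the closed points of `U`, that is, over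
their local rings, which are valuation rings of `F`.  Then `π₁(U) = Gal(F_U/F)`, and the map
`π₁(U) → G_k` is the restriction of automorphisms to the algebraic closure of `k` in `Ω`.  For
`U = ∅` one gets `F_U = Ω` and the sections of `Gal(Ω/F) → G_k`.

Proof.  One finds a number field `L` and a homomorphism `P : R → L` such that for almost all primes `v`
of `L` there is an embedding `ψ : k → L_v` with `ψ(r) ≡ P(r)` modulo `v²` for all `r ∈ R`; it induces a
discrete valuation on `k` with finite residue field.  For 100% of the vectors there is such a `v` of
prime norm for which `P(c₀) + … + P(c_d) x^d` is irreducible of degree `d` modulo `v` and `P(a)` has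
valuation one, because the first condition holds for at least `(N v - 1) (N v)^d / 2d` of the classes
modulo `v`, the second one for `N v - 1` of the classes modulo `v²`, and the sum of the `1/N v` diverges
(library `Pool.Agent.TH377.Sup`).  Let `k'` be a finite extension of `k` with `D ∤ [k' : k]`, and let `l`
be a prime number with `v_l([k' : k]) < v_l(D)`.  There is a place `w` of `k'` over the discrete
valuation of `k` given by `ψ` with `v_l(e f) ≤ v_l([k' : k])` for its ramification index `e` and residue
degree `f`.  Put `ℓ = l^(1 + v_l(e))`, a divisor of `D`.  Then `w(a) = e` is not divisible by `ℓ`, and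
the degrees of the irreducible factors of the polynomial over the residue field of `w` are divisible by
`ℓ` or `2 ℓ`, so that the local theorem of `MP_8312c9_nt.FactorDegrees` (library
`Pool.Agent.TH377.LocG`) applies.
-/

set_option autoImplicit false

open Polynomial NumberField

namespace Pool.Agent.Results.MP_8312c9_nt.SectionDegreesAllCurves

section definitions

variable (k F Ω : Type) [Field k] [Field F] [Field Ω] [Algebra k F]
  [Algebra F Ω] [Algebra k Ω]

/-- The inertia group of the valuation ring `W` of `Ω`, as a subgroup of `Gal(Ω/F)`: the
automorphisms of `Ω` over `F` that map `W` onto itself and act as the identity on its residue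
field. -/
noncomputable def inertia (W : ValuationSubring Ω) : Subgroup (Ω ≃ₐ[F] Ω) :=
  (W.inertiaSubgroup F).map (W.decompositionSubgroup F).subtype

/-- `F_U`, for a set `U` of valuation rings of `F`: the elements of `Ω` fixed by the inertia groups
of all valuation rings `W` of `Ω` with `W ∩ F ∈ U`.  If `Ω` is an algebraic closure of a field `F`
of characteristic zero, this is the maximal extension of `F` in `Ω` unramified over `U`. -/
noncomputable def unramified (U : Set (ValuationSubring F)) : IntermediateField F Ω :=
  ⨅ W : {W : ValuationSubring Ω // W.comap (algebraMap F Ω) ∈ U},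
    IntermediateField.fixedField (inertia F Ω W.1)

/-- The map `τ : M → M` acts as `σ : K → K` on the elements that the fields `K` and `M` have in
common when they are regarded as subfields of `Ω` through `i` and `j`. -/
def ActsAs {K M Ω : Type} [Field K] [Field M] [Field Ω] (i : K →+* Ω) (j : M →+* Ω) (σ : K → K)
    (τ : M → M) : Prop :=
  ∀ c z, j z = i c → j (τ z) = i (σ c)

/-- Let `k ⊆ K ⊆ Ω` and `F ⊆ M ⊆ Ω` be fields.  A splitting of `Gal(M/F) → Gal(K/k)`: a continuous
homomorphism `s` from `Gal(K/k)` to `Gal(M/F)` such that `s(σ)` acts as `σ` on the elements of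
`K ∩ M`. -/
structure Splitting (K M : Type) [Field K] [Field M] [Algebra k K] [Algebra F M] [Algebra K Ω]
    [Algebra M Ω] where
  /-- the homomorphism `Gal(K/k) → Gal(M/F)` -/
  toHom : (K ≃ₐ[k] K) →* (M ≃ₐ[F] M)
  cont : Continuous toHom
  compat : ∀ σ : K ≃ₐ[k] K, ActsAs (algebraMap K Ω) (algebraMap M Ω) σ (toHom σ)

/-- The sections of `π₁(U) = Gal(F_U/F) → G_k`: the continuous homomorphisms `s` from
`G_k = Gal(k̄/k)` to `Gal(F_U/F)`, where `k̄` is the algebraic closure of `k` in `Ω`, such that
`s(σ)` acts as `σ` on the elements of `k̄`. -/
def GaloisSection (U : Set (ValuationSubring F)) : Type :=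
  Splitting k F Ω (algebraicClosure k Ω) (unramified F Ω U)

end definitions

/-- The smooth projective curve with the affine equation `a yⁿ = f(x)` has no point over `k`: neither
over the affine line, nor at infinity, where the points over `k` correspond to the solutions of
`a r^g = c` with `g = gcd(n, deg f)` and `c` the leading coefficient of `f`.  (If `f` has no root in
`k`, then all points over the affine line are given by solutions of the affine equation.) -/
def NoPoint {k : Type} [Field k] (n : ℕ) (a : k) (f : k[X]) : Prop :=
  (¬ ∃ x y : k, a * y ^ n = f.eval x) ∧ ¬ ∃ r : k, a * r ^ Nat.gcd n f.natDegree = f.leadingCoeff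

/-- Let `F` be any field over `k` that contains a point `(x, y)` of the curve `a yⁿ = f(x)`, for
instance the function field of the curve, and let `Ω` be an algebraic closure of `F`.  Then for
every set `U` of valuation rings of `F` over `k` there is no section of `π₁(U) → G_k`.  If `F` is the
function field of the curve, such `U` are given by the smooth projective curve and by all its open
subcurves. -/
def NoSection {k : Type} [Field k] (n : ℕ) (a : k) (f : k[X]) : Prop :=
  ∀ (F Ω : Type) [Field F] [Field Ω] [Algebra k F] [Algebra F Ω] [Algebra k Ω]
    [IsScalarTower k F Ω] [IsAlgClosure F Ω] (x y : F) (U : Set (ValuationSubring F)),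
    algebraMap k F a * y ^ n = aeval x f → (∀ O ∈ U, ∀ c : k, algebraMap k F c ∈ O) →
      IsEmpty (GaloisSection k F Ω U)

/-- The extension `M` of `F` in `Ω` contains the algebraic closure of `k` and, for all roots `θ`, `θ'`
of the polynomial `P`, a root of order `d` of `(x - θ)/(x - θ')`. -/
def ContainsRoots {k : Type} {F Ω : Type} [Field k] [Field F] [Field Ω]
    [Algebra k F] [Algebra F Ω] [Algebra k Ω] (d : ℕ) (P : k[X]) (x : F)
    (M : IntermediateField F Ω) : Prop :=
  (∀ c : algebraicClosure k Ω, (c : Ω) ∈ M) ∧ ∀ θ θ' : Ω, aeval θ P = 0 → aeval θ' P = 0 →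
    ∃ z ∈ M, z ^ d = (algebraMap F Ω x - θ) / (algebraMap F Ω x - θ')

/-- Let `F` be any field over `k` that contains a point `(x, y)` of the curve `a yⁿ = f(x)` and let
`Ω` be an algebraic closure of `F`.  If the extension `M` of `F` in `Ω` contains the algebraic closure
of `k` and the roots of order `d` of the functions `(x - θ)/(x - θ')`, then there is no section of
`Gal(M/F) → G_k`. -/
def NoKummerSection {k : Type} [Field k] (d n : ℕ) (a : k) (P f : k[X]) : Prop :=
  ∀ (F Ω : Type) [Field F] [Field Ω] [Algebra k F] [Algebra F Ω] [Algebra k Ω]
    [IsScalarTower k F Ω] [IsAlgClosure F Ω] (x y : F) (M : IntermediateField F Ω),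
    algebraMap k F a * y ^ n = aeval x f → ContainsRoots d P x M →
      IsEmpty (Splitting k F Ω (algebraicClosure k Ω) M)

/-- All the assertions for the curve `a yⁿ = f(x)` over `k` and the number `D`: the curve has no
point; there is no section of `Gal(M/F) → G_k` for all extensions `M` of its function field `F` that
contain the algebraic closure of `k` and the roots of order `D` of the functions `(x - θ)/(x - θ')`,
where `θ`, `θ'` are roots of `f`, in particular there is no section of `Gal(F̄/F) → G_k`; and the
fundamental groups of the curve and of its open subcurves have no section. -/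
def NothingAt {k : Type} [Field k] (D n : ℕ) (a : k) (f : k[X]) : Prop :=
  NoPoint n a f ∧ NoKummerSection D n a f f ∧ NoSection n a f

/-- For all finite extensions `k'` of `k` whose degree is not divisible by `D`, and all `n` divisible by
`D`, the curve `a yⁿ = f(x)` over `k'` has neither points nor sections, as in the definition
`NothingAt`. -/
def OnlyDegreesDivisible {k : Type} [Field k] (D : ℕ) (a : k) (f : k[X]) : Prop :=
  ∀ (k' : Type) [Field k'] [Algebra k k'] [FiniteDimensional k k'],
    ¬ D ∣ Module.finrank k k' → ∀ n : ℕ, D ∣ n →
      NothingAt D n (algebraMap k k' a) (f.map (algebraMap k k'))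

/-- The polynomial `c₁ + c₂ x + … + c_{d+1} x^d` over `k`, for a vector `(c₀, …, c_{d+1})` of elements
of `R`. -/
noncomputable def poly {R : Type} [CommRing R] (k : Type) [Field k] [Algebra R k] {d : ℕ}
    (c : Fin (d + 2) → R) : k[X] :=
  ∑ i : Fin (d + 1), C (algebraMap R k (c i.succ)) * X ^ (i : ℕ)

/-- The vectors `c = (a, c₀, …, c_d)` of elements of `R` that do not have the following property:
`a ≠ 0`, the polynomial `f = c₀ + … + c_d x^d` is irreducible of degree `d` over `k`, and for all
`D ≥ 1` such that `gcd(2, D) D` divides `d`, the degrees `[k' : k]` of all finite extensions `k'` of `k`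
over which there are points or sections for the curves `a yⁿ = f(x)`, `D ∣ n`, are divisible by `D`, as
in the definition `OnlyDegreesDivisible`. -/
def Exceptional (R : Type) [CommRing R] (k : Type) [Field k] [Algebra R k] (d : ℕ) :
    Set (Fin (d + 2) → R) :=
  {c | ¬ (algebraMap R k (c 0) ≠ 0 ∧ (poly k c).natDegree = d ∧ Irreducible (poly k c) ∧
    ∀ D : ℕ, 0 < D → Nat.gcd 2 D * D ∣ d →
      OnlyDegreesDivisible D (algebraMap R k (c 0)) (poly k c))}

/-- Density zero: for every `ε > 0` there is an ideal `I` of `R` of finite index such that `E` lies
in at most `ε #(R/I)ᴺ` residue classes modulo `I`. -/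
def DensityZero {R : Type} [CommRing R] {N : ℕ} (E : Set (Fin N → R)) : Prop :=
  ∀ ε : ℝ, 0 < ε → ∃ I : Ideal R, Finite (R ⧸ I) ∧
    (Set.ncard ((fun (t : Fin N → R) i => Ideal.Quotient.mk I (t i)) '' E) : ℝ) ≤
      ε * (Nat.card (R ⧸ I) : ℝ) ^ N

lemma nothing_of_data {L : Type} [Field L] [CharZero L] (D : ℕ) (a : L)
    (f : L[X]) (h : Pool.Agent.V11235.SH.Data D L a (fun _ : Unit => f)) (n : ℕ) (hn : D ∣ n) :
    NothingAt D n a f := by
  obtain ⟨ℓ, hℓ0, hℓD, A, _, _, _, _, _, h, hlc, hmap, hs, hf, ϖ, t, m, hϖ, ht, hm, ha⟩ := h
  obtain ⟨e, he⟩ : ∃ e : Unit → ℕ, e = fun _ => 1 := ⟨_, rfl⟩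
  have hρ : Function.Surjective (IsLocalRing.residue A) := IsLocalRing.residue_surjective
  have h1 : f = (∏ i, h i ^ e i).map (algebraMap A L) := by
    rw [Finset.univ_unique, Finset.prod_singleton, he]
    simp only [pow_one]
    exact (hmap ()).symm
  have h2 : f = (∏ i, h i).map (algebraMap A L) := by
    rw [Finset.univ_unique, Finset.prod_singleton]
    exact (hmap ()).symm
  have hℓn : ℓ ∣ n := hℓD.trans hn
  have key : NoPoint n a ((∏ i, h i ^ e i).map (algebraMap A L)) ∧
      NoKummerSection D n a ((∏ i, h i).map (algebraMap A L))
        ((∏ i, h i ^ e i).map (algebraMap A L)) ∧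
      NoSection n a ((∏ i, h i ^ e i).map (algebraMap A L)) := by
    refine ⟨⟨?_, ?_⟩, ?_, ?_⟩
    · rintro ⟨x, y, hxy⟩
      exact Pool.Agent.TH377.LocG.res_P _ hρ ℓ hℓ0 h e hlc hs hf ϖ hϖ a t ht m hm ha n hℓn x y hxy
    · rintro ⟨r, hr⟩
      exact Pool.Agent.TH377.LocG.res_inf _ hρ ℓ hℓ0 h e hlc hs hf ϖ hϖ a t ht m hm ha n hℓn r hr
    · intro F Ω _ _ _ _ _ _ _ x y M hxy hM
      have hcl : IsAlgClosed Ω := IsAlgClosure.isAlgClosed F
      have halg : Algebra.IsAlgebraic F Ω := IsAlgClosure.isAlgebraic
      have hroot : ∀ θ θ' : Ω, aeval θ ((∏ i, h i).map (algebraMap A L)) = 0 →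
          aeval θ' ((∏ i, h i).map (algebraMap A L)) = 0 →
          ∃ z ∈ M, z ^ ℓ = (algebraMap F Ω x - θ) / (algebraMap F Ω x - θ') := by
        intro θ θ' hθ hθ'
        obtain ⟨z, hz, hzD⟩ := hM.2 θ θ' hθ hθ'
        obtain ⟨c, hc⟩ := hℓD
        refine ⟨z ^ c, pow_mem hz c, ?_⟩
        rw [← hzD, ← pow_mul, hc, mul_comm c ℓ]
      have h := Pool.Agent.TH377.LocG.res_M (F := F) (Ω := Ω) _ hρ ℓ hℓ0 h e hlc hs hf ϖ hϖ a t ht m
        hm ha n hℓn M hM.1 x y hxy hroot
      exact ⟨fun s => h.false ⟨s.toHom, s.cont, fun σ c z hz => s.compat σ c z hz⟩⟩
    · intro F Ω _ _ _ _ _ _ _ x y U hxy hU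
      have hcl : IsAlgClosed Ω := IsAlgClosure.isAlgClosed F
      have halg : Algebra.IsAlgebraic F Ω := IsAlgClosure.isAlgebraic
      have h := Pool.Agent.TH377.LocG.res_U (F := F) (Ω := Ω) _ hρ ℓ hℓ0 h e hlc hs hf ϖ hϖ a t ht m
        hm ha n hℓn (fun i => by rw [he]; exact Nat.coprime_one_right ℓ) U hU x y hxy
      exact ⟨fun s => h.false ⟨s.toHom, s.cont, s.compat⟩⟩
  rw [← h1, ← h2] at key
  exact key

/-- Let `R` be a domain of characteristic zero that is finitely generated as a ring, with fraction
field `k`; so `k` is any field finitely generated over `ℚ`.  Let `d ≥ 3`.  For all vectors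
`(a, c₀, …, c_d)` of elements of `R` outside a set of density zero, the polynomial
`f = c₀ + … + c_d x^d` is irreducible of degree `d` over `k`, and for all `D ≥ 1` such that `gcd(2, D) D`
divides `d`, all finite extensions `k'` of `k` whose degree is not divisible by `D`, and all `n`
divisible by `D`: the curve `a yⁿ = f(x)` has no point over `k'`; there are no sections over `G_k'` of
the absolute Galois group of its function field `F` over `k'`, and of the quotients of it that belong
to the extensions of `F` which contain the algebraic closure of `k'` and the roots of order `D` of the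
ratios of the functions `x - ρ`, where `ρ` is a root of `f`; and there are no sections of the
fundamental groups of the curve over `k'`, of its open subcurves and of the smooth curves over `k'`
that dominate them. -/
theorem result (R : Type) [CommRing R] [IsDomain R] [CharZero R] [Algebra.FiniteType ℤ R]
    (k : Type) [Field k] [Algebra R k] [IsFractionRing R k] (d : ℕ) (hd : 3 ≤ d) :
    DensityZero (Exceptional R k d) := by
  have hcz : CharZero k := charZero_of_injective_algebraMap (IsFractionRing.injective R k)
  intro ε hε
  obtain ⟨I, hI, hle⟩ := Pool.Agent.V11235.SJ.density_all (R := R) (k := k) d hd ε hε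
  refine ⟨I, hI, le_trans ?_ hle⟩
  have hsub : (Exceptional R k d : Set (Fin (d + 2) → R)) ⊆
      {c : Fin (d + 2) → R | ¬ Pool.Agent.V11235.SJ.GoodA k c} := by
    intro c hc hgood
    obtain ⟨h1, h2, h3, -, h4⟩ := hgood
    apply hc
    have hdeg : (poly k c).natDegree = d := Pool.Agent.TH377.Sup.pol_natDegree _ h2
    refine ⟨h1, hdeg, h3, fun D hD hDd K' _ _ _ hK' n hn => ?_⟩
    have hcz' : CharZero K' := charZero_of_injective_algebraMap (algebraMap k K').injective
    refine nothing_of_data D _ _ (h4 D hD.ne' hDd K' ?_) n hn
    intro h5
    apply hK'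
    exact_mod_cast h5
  exact_mod_cast Set.ncard_le_ncard (Set.image_mono hsub) (Set.toFinite _)

end Pool.Agent.Results.MP_8312c9_nt.SectionDegreesAllCurves
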