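import Pool.Agent.V11235.SI.CoreF
import Pool.Agent.V11235.SI.CountP
import Pool.Agent.TH377.LocG.Res

/-!
# Degrees of the fields over which the fibres of families of cyclic covers have birational sections

Let `k` be any field finitely generated over `ℚ`, that is, the fraction field of a domain `R` of
characteristic zero that is finitely generated as a ring.  Let `g, F_i, …` be polynomials with
coefficients in `k`, `g ∈ k[t]`, `g ≠ 0`, `F_i ∈ k[t][x]` for finitely many `i`, and `e_i ≥ 0`.  We consider
the one-parameter family of cyclic covers of the line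

  `C_t : g(t) yⁿ = ∏ F_i(t, x)^(e_i)`;

all coefficients vary with `t`.  Suppose that in some finite extension `L` of `k` there is a `θ` such
that the `F_i(θ, x) ∈ L[x]` have the same degrees as the `F_i`, such that `∏ F_i(θ, x)` is separable, and
such that the Galois group of this polynomial over `L` has an element all of whose cycles on the roots
have a length that is divisible by `D` if `D` is odd and by `2 D` if `D` is even.  Let `m` be the
multiplicity of the root `θ` of `g`.

Then for 100% of the points `t ∈ k` of the line we have for **all** finite extensions `k'` of `k` and all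
`n` divisible by `D`: if `C_t` has a point over `k'`, or if the absolute Galois group of the function
field of `C_t` over `k'` has a section over `G_k'`, then `D` divides `m [k' : k]`.  If the `e_i` are prime
to `D` the same is true for the sections of the fundamental groups of `C_t` over `k'`, of its open
subcurves and of all smooth curves over `k'` that dominate `C_t`.  In particular `C_t` satisfies the
birational section conjecture over all finite extensions `k'` of `k` with `D ∤ m [k' : k]`.  Already a
very small quotient of the absolute Galois group has no section over `k'`: the one that belongs to the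
field generated by `k̄` and the roots of order `D` of the functions `(x - ρ)/(x - ρ')`, where `ρ`, `ρ'`
are roots of `∏ F_i(t, x)`.

The exceptional `t` do not depend on `k'` and `n`.  For `t = a/b`, `a, b ∈ R`, they have density zero:
for every `ε > 0` there is an ideal `I` of `R` of finite index such that the exceptional pairs `(a, b)`
lie in at most `ε #(R/I)²` classes modulo `I`.  Already 100% of the rational numbers and of the integers
`t` are not exceptional: for some `δ > 0` there are at most `O(B² / (log B)^δ)` exceptional rational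
numbers `t` of height at most `B`, and at most `O(B / (log B)^δ)` exceptional integers `t` with
`|t| ≤ B`.  If `θ ≠ 0`, then also 100% of the prime numbers `t` are not exceptional: there are at most
`O(B / (log B)^(1 + δ))` exceptional prime numbers `t ≤ B`.  Here the coefficients of the family and the
fields `k'` are arbitrary, only the parameter is a rational number.

For instance, let `D` be odd and let `F(θ, x)` have degree `D` and an `L`-Galois group that contains a
cycle of length `D`.  If `g` has a simple zero at `θ`, then for 100% of the `t` the degrees `[k' : k]` of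
all fields over which one of the curves `g(t) yⁿ = F(t, x)`, `D ∣ n`, has a point or a (birational)
section are divisible by `D`.  For all these curves the points over the fields generated by a root of
`F(t, x)` show that this is best possible.

The fundamental group is described through valuations.  Let `U` be a smooth geometrically connected
curve over `k` with function field `F`, let `Ω` be an algebraic closure of `F`, and let `F_U` be the
maximal extension of `F` inside `Ω` which is unramified over the closed points of `U`, that is, over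
their local rings, which are valuation rings of `F`.  Then `π₁(U) = Gal(F_U/F)`, and the map
`π₁(U) → G_k` is the restriction of automorphisms to the algebraic closure of `k` in `Ω`.  For
`U = ∅` one gets `F_U = Ω` and the sections of `Gal(Ω/F) → G_k`.

Proof.  Let `R' ⊆ L` be a finitely generated ring with fraction field `L` that contains `R`, `θ` and the
coefficients of the `F_i` and of `g / (t - θ)^m`.  There are a number field `M` and a homomorphism
`P : R' → M` such that the polynomial `∏ F_i(θ, x)` specialised at `P` is separable of the same degree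
and has a Galois group over `M` with an element of the same cycle type, and such that for almost all
primes `v` of `M` there is an embedding `ψ : L → M_v` with `ψ(r) ≡ P(r)` modulo `v²` for all `r ∈ R'`
(Hilbert's irreducibility theorem; for number fields one can take `M = L`).  By Chebotarev's theorem a
positive proportion of all prime numbers `p` are norms of primes `v` of `M` with the given Frobenius
element, modulo which the degrees of all irreducible factors of this polynomial are divisible by `D` or
`2 D`.  If `ψ(t)` is congruent to `ψ(θ)` modulo `v` but not modulo `v²`, the same is true for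
`∏ F_i(t, x)`, and `v(ψ(g(t))) = m`.  Let `k'` be a finite extension of `k` with `D ∤ m [k' : k]`, and let
`l` be a prime number with `v_l(m [k' : k]) < v_l(D)`.  There is a place `w` of `k'` over the discrete
valuation of `k` given by `ψ` with `v_l(e f) ≤ v_l([k' : k])` for its ramification index `e` and residue
degree `f`.  Put `ℓ = l^(1 + v_l(e m))`, a divisor of `D`.  Then `w(g(t)) = e m` is not divisible by `ℓ`, and
the degrees of the irreducible factors of `∏ F_i(t, x)` over the residue field of `w` are divisible by
`ℓ` or `2 ℓ`, so that the local theorem of `MP_8312c9_nt.FactorDegrees` (library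
`Pool.Agent.TH377.LocG`) applies.  The `t` which are not close to `θ` in this sense for any of the primes
`p` are counted with the classes modulo `p²`.  For the rational, integral and prime `t` this is done
with the fundamental lemma of the sieve and Mertens' theorem; for prime numbers `t` two classes are
sieved out modulo `p`, the class of `0` and the class given by `θ`, which is not the class of `0` if
`P(θ) ≠ 0`.
-/

set_option autoImplicit false

open Polynomial NumberField

namespace Pool.Agent.Results.MP_8312c9_nt.SectionDegreesInFamilies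

section definitions

variable (k F Ω : Type) [Field k] [Field F] [Field Ω] [Algebra k F]
  [Algebra F Ω] [Algebra k Ω]

/-- The inertia group of the valuation ring `W` of `Ω`, as a subgroup of `Gal(Ω/F)`: the
automorphisms of `Ω` over `F` that map `W` onto itself and act as the identity on its residue
field. -/
noncomputable def inertia (W : ValuationSubring Ω) : Subgroup (Ω ≃ₐ[F] Ω) :=
  (W.inertiaSubgroup F).map (W.decompositionSubgroup F).subtype

/-- `F_U`, for a set `U` of valuation rings of `F`: the elements of `Ω` fixed by the inertia groups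
of all valuation rings `W` of `Ω` with `W ∩ F ∈ U`.  If `Ω` is an algebraic closure of a field `F`
of characteristic zero, this is the maximal extension of `F` in `Ω` unramified over `U`. -/
noncomputable def unramified (U : Set (ValuationSubring F)) : IntermediateField F Ω :=
  ⨅ W : {W : ValuationSubring Ω // W.comap (algebraMap F Ω) ∈ U},
    IntermediateField.fixedField (inertia F Ω W.1)

/-- The map `τ : M → M` acts as `σ : K → K` on the elements that the fields `K` and `M` have in
common when they are regarded as subfields of `Ω` through `i` and `j`. -/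
def ActsAs {K M Ω : Type} [Field K] [Field M] [Field Ω] (i : K →+* Ω) (j : M →+* Ω) (σ : K → K)
    (τ : M → M) : Prop :=
  ∀ c z, j z = i c → j (τ z) = i (σ c)

/-- Let `k ⊆ K ⊆ Ω` and `F ⊆ M ⊆ Ω` be fields.  A splitting of `Gal(M/F) → Gal(K/k)`: a continuous
homomorphism `s` from `Gal(K/k)` to `Gal(M/F)` such that `s(σ)` acts as `σ` on the elements of
`K ∩ M`. -/
structure Splitting (K M : Type) [Field K] [Field M] [Algebra k K] [Algebra F M] [Algebra K Ω]
    [Algebra M Ω] where
  /-- the homomorphism `Gal(K/k) → Gal(M/F)` -/
  toHom : (K ≃ₐ[k] K) →* (M ≃ₐ[F] M)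
  cont : Continuous toHom
  compat : ∀ σ : K ≃ₐ[k] K, ActsAs (algebraMap K Ω) (algebraMap M Ω) σ (toHom σ)

/-- The sections of `π₁(U) = Gal(F_U/F) → G_k`: the continuous homomorphisms `s` from
`G_k = Gal(k̄/k)` to `Gal(F_U/F)`, where `k̄` is the algebraic closure of `k` in `Ω`, such that
`s(σ)` acts as `σ` on the elements of `k̄`. -/
def GaloisSection (U : Set (ValuationSubring F)) : Type :=
  Splitting k F Ω (algebraicClosure k Ω) (unramified F Ω U)

end definitions

/-- The smooth projective curve with the affine equation `a yⁿ = f(x)` has no point over `k`: neither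
over the affine line, nor at infinity, where the points over `k` correspond to the solutions of
`a r^g = c` with `g = gcd(n, deg f)` and `c` the leading coefficient of `f`.  (If `f` has no root in
`k`, then all points over the affine line are given by solutions of the affine equation.) -/
def NoPoint {k : Type} [Field k] (n : ℕ) (a : k) (f : k[X]) : Prop :=
  (¬ ∃ x y : k, a * y ^ n = f.eval x) ∧ ¬ ∃ r : k, a * r ^ Nat.gcd n f.natDegree = f.leadingCoeff

/-- Let `F` be any field over `k` that contains a point `(x, y)` of the curve `a yⁿ = f(x)`, for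
instance the function field of the curve, and let `Ω` be an algebraic closure of `F`.  Then for
every set `U` of valuation rings of `F` over `k` there is no section of `π₁(U) → G_k`.  If `F` is the
function field of the curve, such `U` are given by the smooth projective curve and by all its open
subcurves. -/
def NoSection {k : Type} [Field k] (n : ℕ) (a : k) (f : k[X]) : Prop :=
  ∀ (F Ω : Type) [Field F] [Field Ω] [Algebra k F] [Algebra F Ω] [Algebra k Ω]
    [IsScalarTower k F Ω] [IsAlgClosure F Ω] (x y : F) (U : Set (ValuationSubring F)),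
    algebraMap k F a * y ^ n = aeval x f → (∀ O ∈ U, ∀ c : k, algebraMap k F c ∈ O) →
      IsEmpty (GaloisSection k F Ω U)

/-- The extension `M` of `F` in `Ω` contains the algebraic closure of `k` and, for all roots `θ`, `θ'`
of the polynomial `P`, a root of order `d` of `(x - θ)/(x - θ')`. -/
def ContainsRoots {k : Type} {F Ω : Type} [Field k] [Field F] [Field Ω]
    [Algebra k F] [Algebra F Ω] [Algebra k Ω] (d : ℕ) (P : k[X]) (x : F)
    (M : IntermediateField F Ω) : Prop :=
  (∀ c : algebraicClosure k Ω, (c : Ω) ∈ M) ∧ ∀ θ θ' : Ω, aeval θ P = 0 → aeval θ' P = 0 →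
    ∃ z ∈ M, z ^ d = (algebraMap F Ω x - θ) / (algebraMap F Ω x - θ')

/-- Let `F` be any field over `k` that contains a point `(x, y)` of the curve `a yⁿ = f(x)` and let
`Ω` be an algebraic closure of `F`.  If the extension `M` of `F` in `Ω` contains the algebraic closure
of `k` and the roots of order `d` of the functions `(x - θ)/(x - θ')`, then there is no section of
`Gal(M/F) → G_k`. -/
def NoKummerSection {k : Type} [Field k] (d n : ℕ) (a : k) (P f : k[X]) : Prop :=
  ∀ (F Ω : Type) [Field F] [Field Ω] [Algebra k F] [Algebra F Ω] [Algebra k Ω]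
    [IsScalarTower k F Ω] [IsAlgClosure F Ω] (x y : F) (M : IntermediateField F Ω),
    algebraMap k F a * y ^ n = aeval x f → ContainsRoots d P x M →
      IsEmpty (Splitting k F Ω (algebraicClosure k Ω) M)

/-- All the assertions for the curve `a yⁿ = ∏ f_i(x)^(e_i)` over `k` and the number `D`: the curve has no
point; there is no section of `Gal(M/F) → G_k` for all extensions `M` of its function field `F` that
contain the algebraic closure of `k` and the roots of order `D` of the functions `(x - θ)/(x - θ')`,
where `θ`, `θ'` are roots of `∏ f_i`; and if the `e_i` are prime to `D` the fundamental groups of the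
curve and of its open subcurves have no section. -/
def NothingAt {k : Type} [Field k] {I : Type} [Fintype I] (D n : ℕ) (a : k) (f : I → k[X])
    (e : I → ℕ) : Prop :=
  NoPoint n a (∏ i, f i ^ e i) ∧
    NoKummerSection D n a (∏ i, f i) (∏ i, f i ^ e i) ∧
    ((∀ i, Nat.Coprime D (e i)) → NoSection n a (∏ i, f i ^ e i))

/-- For all finite extensions `k'` of `k` such that `D` does not divide `m [k' : k]`, and all `n`
divisible by `D`, the curve `a yⁿ = ∏ f_i(x)^(e_i)` over `k'` has neither points nor sections, as in the
definition `NothingAt`. -/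
def OnlyDegreesDivisible {k : Type} [Field k] {I : Type} [Fintype I] (D m : ℕ) (a : k)
    (f : I → k[X]) (e : I → ℕ) : Prop :=
  ∀ (k' : Type) [Field k'] [Algebra k k'] [FiniteDimensional k k'],
    ¬ D ∣ m * Module.finrank k k' → ∀ n : ℕ, D ∣ n →
      NothingAt D n (algebraMap k k' a) (fun i => (f i).map (algebraMap k k')) e

/-- The lengths of all the cycles on the roots of `f` of a certain element `σ` of the Galois group
of `k` are divisible by `N`: no power `σⁿ`, `N ∤ n`, fixes a root. -/
def HasCyclesDivisibleBy {k : Type} [Field k] (N : ℕ) (f : k[X]) : Prop :=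
  ∃ σ : AlgebraicClosure k ≃ₐ[k] AlgebraicClosure k, ∀ n : ℕ, ¬ N ∣ n →
    ∀ θ : AlgebraicClosure k, aeval θ f = 0 → (σ ^ n) θ ≠ θ

/-- The value `q(θ)` of a polynomial `q ∈ k[t]` at an element `θ` of an extension `L` of `k`. -/
noncomputable def value {k L : Type} [Field k] [Field L] [Algebra k L] (θ : L) : k[X] →+* L :=
  eval₂RingHom (algebraMap k L) θ

/-- The multiplicity of the root `θ ∈ L` of `g ∈ k[t]`. -/
noncomputable def mult {k L : Type} [Field k] [Field L] [Algebra k L] (g : k[X]) (θ : L) : ℕ :=
  (g.map (algebraMap k L)).rootMultiplicity θ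

/-- The polynomial `F(t, x) ∈ k[x]`. -/
noncomputable def fibre {k : Type} [Field k] (F : k[X][X]) (t : k) : k[X] := F.map (evalRingHom t)

/-- The polynomials `F_i(θ, x) ∈ L[x]` have the same degrees as the `F_i`, their product is separable,
and the Galois group over `L` has an element all of whose cycles on the roots of this product have a
length divisible by `gcd(2, D) D`. -/
structure RamifiedAt {k L : Type} [Field k] [Field L] [Algebra k L] {I : Type} [Fintype I] (D : ℕ)
    (F : I → k[X][X]) (θ : L) : Prop where
  degree : ∀ i, value θ (F i).leadingCoeff ≠ 0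
  separable : (∏ i, (F i).map (value θ)).Separable
  cycles : HasCyclesDivisibleBy (Nat.gcd 2 D * D) (∏ i, (F i).map (value θ))

/-- The parameters `t ∈ k` that do not have the following property: the polynomials `F_i(t, x)` have
the same degrees as the `F_i`, and the degrees `[k' : k]` of all finite extensions `k'` of `k` over which
there are points or sections for the curves `g(t) yⁿ = ∏ F_i(t, x)^(e_i)`, `D ∣ n`, are such that `D`
divides `m [k' : k]`, as in the definition `OnlyDegreesDivisible`. -/
def Exceptional {k : Type} [Field k] {I : Type} [Fintype I] (D m : ℕ) (g : k[X]) (F : I → k[X][X])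
    (e : I → ℕ) : Set k :=
  {t | ¬ ((∀ i, (fibre (F i) t).natDegree = (F i).natDegree) ∧
    OnlyDegreesDivisible D m (g.eval t) (fun i => fibre (F i) t) e)}

/-- Density zero: for every `ε > 0` there is an ideal `I` of `R` of finite index such that the pairs
`(a, b) ∈ R²` with `a/b ∈ E` lie in at most `ε #(R/I)²` classes of `R²` modulo `I`. -/
def DensityZero (R : Type) [CommRing R] {k : Type} [Field k] [Algebra R k] (E : Set k) : Prop :=
  ∀ ε : ℝ, 0 < ε → ∃ I : Ideal R, Finite (R ⧸ I) ∧
    (Set.ncard ((fun p : R × R => (Ideal.Quotient.mk I p.1, Ideal.Quotient.mk I p.2)) ''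
      {p | algebraMap R k p.1 / algebraMap R k p.2 ∈ E}) : ℝ) ≤ ε * (Nat.card (R ⧸ I) : ℝ) ^ 2

/-- There are `δ > 0` and `C` such that for all `B ≥ 2` at most `C B² / (log B)^δ` rational numbers
`a/b` (in lowest terms) in `E` have height `max(|a|, |b|)` at most `B`, and at most `C B / (log B)^δ`
integers in `E` have absolute value at most `B`. -/
def FewRationals {k : Type} [Field k] (E : Set k) : Prop :=
  ∃ δ C : ℝ, 0 < δ ∧ ∀ B : ℕ, 2 ≤ B →
    (Set.ncard {t : ℚ | (t : k) ∈ E ∧ |t.num| ≤ B ∧ t.den ≤ B} : ℝ) ≤
      C * ((B : ℝ) ^ 2 / Real.log B ^ δ) ∧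
    (Set.ncard {n : ℤ | (n : k) ∈ E ∧ |n| ≤ B} : ℝ) ≤ C * (B / Real.log B ^ δ)

/-- There are `δ > 0` and `C` such that for all `B ≥ 2` at most `C B / (log B)^(1 + δ)` of the prime
numbers that are at most `B` lie in `E`. -/
def FewPrimes {k : Type} [Field k] (E : Set k) : Prop :=
  ∃ δ C : ℝ, 0 < δ ∧ ∀ B : ℕ, 2 ≤ B →
    (Set.ncard {p : ℕ | p.Prime ∧ (p : k) ∈ E ∧ p ≤ B} : ℝ) ≤ C * (B / Real.log B ^ (1 + δ))

lemma nothing_of_data {L : Type} [Field L] [CharZero L] {I : Type} [Fintype I] (D : ℕ) (a : L)
    (f : I → L[X]) (e : I → ℕ) (h : Pool.Agent.V11235.SH.Data D L a f) (n : ℕ) (hn : D ∣ n) :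
    NothingAt D n a f e := by
  obtain ⟨ℓ, hℓ0, hℓD, A, _, _, _, _, _, h, hlc, hmap, hs, hf, ϖ, t, m, hϖ, ht, hm, ha⟩ := h
  have hf' : f = fun i => (h i).map (algebraMap A L) := funext fun i => (hmap i).symm
  subst hf'
  have hρ : Function.Surjective (IsLocalRing.residue A) := IsLocalRing.residue_surjective
  have h1 : ∏ i, (h i).map (algebraMap A L) ^ e i = (∏ i, h i ^ e i).map (algebraMap A L) := by
    rw [Polynomial.map_prod]
    exact Finset.prod_congr rfl fun i _ => (Polynomial.map_pow _ _).symm
  have h2 : ∏ i, (h i).map (algebraMap A L) = (∏ i, h i).map (algebraMap A L) :=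
    (Polynomial.map_prod _ _ _).symm
  have hℓn : ℓ ∣ n := hℓD.trans hn
  unfold NothingAt
  rw [h1, h2]
  refine ⟨⟨?_, ?_⟩, ?_, ?_⟩
  · rintro ⟨x, y, hxy⟩
    exact Pool.Agent.TH377.LocG.res_P _ hρ ℓ hℓ0 h e hlc hs hf ϖ hϖ a t ht m hm ha n hℓn x y hxy
  · rintro ⟨r, hr⟩
    exact Pool.Agent.TH377.LocG.res_inf _ hρ ℓ hℓ0 h e hlc hs hf ϖ hϖ a t ht m hm ha n hℓn r hr
  · intro F Ω _ _ _ _ _ _ _ x y M hxy hM
    have hcl : IsAlgClosed Ω := IsAlgClosure.isAlgClosed F
    have halg : Algebra.IsAlgebraic F Ω := IsAlgClosure.isAlgebraic
    have hroot : ∀ θ θ' : Ω, aeval θ ((∏ i, h i).map (algebraMap A L)) = 0 →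
        aeval θ' ((∏ i, h i).map (algebraMap A L)) = 0 →
        ∃ z ∈ M, z ^ ℓ = (algebraMap F Ω x - θ) / (algebraMap F Ω x - θ') := by
      intro θ θ' hθ hθ'
      obtain ⟨z, hz, hzD⟩ := hM.2 θ θ' hθ hθ'
      obtain ⟨c, hc⟩ := hℓD
      refine ⟨z ^ c, pow_mem hz c, ?_⟩
      rw [← hzD, ← pow_mul, hc, mul_comm c ℓ]
    have h := Pool.Agent.TH377.LocG.res_M (F := F) (Ω := Ω) _ hρ ℓ hℓ0 h e hlc hs hf ϖ hϖ a t ht m hm
      ha n hℓn M hM.1 x y hxy hroot
    exact ⟨fun s => h.false ⟨s.toHom, s.cont, fun σ c z hz => s.compat σ c z hz⟩⟩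
  · intro he F Ω _ _ _ _ _ _ _ x y U hxy hU
    have hcl : IsAlgClosed Ω := IsAlgClosure.isAlgClosed F
    have halg : Algebra.IsAlgebraic F Ω := IsAlgClosure.isAlgebraic
    have h := Pool.Agent.TH377.LocG.res_U (F := F) (Ω := Ω) _ hρ ℓ hℓ0 h e hlc hs hf ϖ hϖ a t ht m hm
      ha n hℓn (fun i => Nat.Coprime.coprime_dvd_left hℓD (he i)) U hU x y hxy
    exact ⟨fun s => h.false ⟨s.toHom, s.cont, s.compat⟩⟩

lemma only_of_data {k : Type} [Field k] [CharZero k] {I : Type} [Fintype I] (D m : ℕ) (a : k)
    (f : I → k[X]) (e : I → ℕ)
    (h : ∀ (k' : Type) [Field k'] [Algebra k k'] [FiniteDimensional k k'],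
      ¬ (D : ℤ) ∣ (m : ℤ) * Module.finrank k k' →
      Pool.Agent.V11235.SH.Data D k' (algebraMap k k' a) (fun i => (f i).map (algebraMap k k'))) :
    OnlyDegreesDivisible D m a f e := by
  intro k' _ _ _ hk' n hn
  have hcz : CharZero k' := charZero_of_injective_algebraMap (algebraMap k k').injective
  refine nothing_of_data D _ _ e (h k' ?_) n hn
  intro h1
  apply hk'
  exact_mod_cast h1

open Pool.Agent.V11235.SD in
lemma core {R : Type} [CommRing R] [IsDomain R] [CharZero R] [Algebra.FiniteType ℤ R] {k : Type}
    [Field k] [Algebra R k] [IsFractionRing R k] {I : Type} [Fintype I] (F : I → k[X][X])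
    (e : I → ℕ) (g : k[X]) (hg : g ≠ 0) (L : Type) [Field L] [Algebra k L] [FiniteDimensional k L]
    (θ : L) (D : ℕ) (hD : 0 < D) (h : RamifiedAt D F θ) :
    ∃ S : Set ℕ, (∀ p ∈ S, p.Prime) ∧ Pool.Agent.V11235.SF.Dense S ∧ ∀ p ∈ S,
      ∃ (χ : R →+* ZMod (p ^ 2)) (Θ : ZMod (p ^ 2)), (θ ≠ 0 → IsUnit Θ) ∧
        ∀ a b : R, Good p Θ (χ a) (χ b) →
          algebraMap R k a / algebraMap R k b ∉ Exceptional D (mult g θ) g F e := by
  have hcz : CharZero k := charZero_of_injective_algebraMap (IsFractionRing.injective R k)
  have hprod : (∏ i, F i).map (value θ) = ∏ i, (F i).map (value θ) := Polynomial.map_prod _ _ _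
  have h1 := h.separable
  have h2 := h.cycles
  rw [← hprod] at h1 h2
  obtain ⟨S, hSp, hSd, hSv⟩ := Pool.Agent.V11235.SI.core_fg (R := R) D hD.ne' g F θ hg h.degree h1 h2
  refine ⟨S, hSp, hSd, fun p hp => ?_⟩
  obtain ⟨χ, Θ, hΘ, hχ⟩ := hSv p hp
  refine ⟨χ, Θ, hΘ, fun a b hgood hex => hex ?_⟩
  obtain ⟨h3, h4⟩ := hχ a b hgood
  exact ⟨h3, only_of_data D _ _ _ e fun k' _ _ _ hk' => h4 k' hk'⟩

open Pool.Agent.V11235.SD in
lemma densityZero {R : Type} [CommRing R] {k : Type} [Field k] [Algebra R k] (E : Set k)
    (S : Set ℕ) (hSp : ∀ p ∈ S, p.Prime) (hSd : Pool.Agent.V11235.SF.Dense S)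
    (hSv : ∀ p ∈ S, ∃ (χ : R →+* ZMod (p ^ 2)) (Θ : ZMod (p ^ 2)),
      ∀ a b : R, Good p Θ (χ a) (χ b) → algebraMap R k a / algebraMap R k b ∉ E) :
    DensityZero R E := by
  classical
  intro ε hε
  obtain ⟨δ, C, hδ, hSd⟩ := hSd
  obtain ⟨T, hTS, hTε⟩ := small_prod S hSp
    (Pool.Agent.W723.SecC.diverge _ δ C hδ hSd) ε hε
  have hv : ∀ p : T, ∃ (χ : R →+* ZMod (p.1 ^ 2)) (Θ : ZMod (p.1 ^ 2)), ∀ a b : R,
      Good p.1 Θ (χ a) (χ b) → algebraMap R k a / algebraMap R k b ∉ E :=
    fun p => hSv p.1 (hTS p.1 p.2)
  choose χ Θ hχ using hv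
  have hTp : ∀ p ∈ T, p.Prime := fun p hp => hSp p (hTS p hp)
  obtain ⟨J, hJ, hJE⟩ := count_pairs T hTp χ Θ
    {p : R × R | algebraMap R k p.1 / algebraMap R k p.2 ∈ E} (by
    rintro ⟨a, b⟩ hbad p hgood
    exact hχ p a b hgood hbad)
  refine ⟨J, hJ, hJE.trans ?_⟩
  exact mul_le_mul_of_nonneg_right hTε.le (by positivity)

open Pool.Agent.V11235.SD in
lemma fewRationals {R : Type} [CommRing R] {k : Type} [Field k] [Algebra R k] (E : Set k)
    (S : Set ℕ) (hSp : ∀ p ∈ S, p.Prime) (hSd : Pool.Agent.V11235.SF.Dense S)
    (hSv : ∀ p ∈ S, ∃ (χ : R →+* ZMod (p ^ 2)) (Θ : ZMod (p ^ 2)),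
      ∀ a b : R, Good p Θ (χ a) (χ b) → algebraMap R k a / algebraMap R k b ∉ E) :
    FewRationals E := by
  classical
  obtain ⟨η, C, hη, -, hcount⟩ := Pool.Agent.V11235.SF.rat_count S hSp hSd
  refine ⟨η, C, hη, fun B hB => ?_⟩
  choose χ Θ hχ using hSv
  have h := hcount (fun p => if hp : p ∈ S then Θ p hp else 0) {t : ℚ | (t : k) ∈ E} (by
    intro p hp t ht
    rw [dif_pos hp]
    intro hgood
    refine hχ p hp (t.num : R) ((t.den : ℤ) : R) ?_ ?_
    · rw [map_intCast, map_intCast]
      exact hgood
    · rw [map_intCast, map_intCast, Int.cast_natCast, ← Rat.cast_def]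
      exact ht) B hB
  refine ⟨h.1, ?_⟩
  have h2 := h.2
  simp only [Set.mem_ofPred_eq, Rat.cast_intCast] at h2
  exact h2

open Pool.Agent.V11235.SD in
lemma fewPrimes {R : Type} [CommRing R] {k : Type} [Field k] [Algebra R k] (E : Set k)
    (S : Set ℕ) (hSp : ∀ p ∈ S, p.Prime) (hSd : Pool.Agent.V11235.SF.Dense S)
    (hSv : ∀ p ∈ S, ∃ (χ : R →+* ZMod (p ^ 2)) (Θ : ZMod (p ^ 2)), IsUnit Θ ∧
      ∀ a b : R, Good p Θ (χ a) (χ b) → algebraMap R k a / algebraMap R k b ∉ E) :
    FewPrimes E := by
  classical
  obtain ⟨η, C, hη, -, hcount⟩ := Pool.Agent.V11235.SI.prime_count S hSp hSd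
  refine ⟨η, C, hη, fun B hB => ?_⟩
  choose χ Θ hΘ hχ using hSv
  exact hcount (fun p => if hp : p ∈ S then Θ p hp else 0) (by
    intro p hp
    rw [dif_pos hp]
    exact hΘ p hp) {n : ℕ | (n : k) ∈ E} (by
    intro p hp n hn
    rw [dif_pos hp]
    intro hgood
    refine hχ p hp ((n : ℤ) : R) ((1 : ℤ) : R) ?_ ?_
    · rw [map_intCast, map_intCast]
      exact hgood
    · rw [map_intCast, map_intCast, Int.cast_natCast, Int.cast_one, div_one]
      exact hn) B hB

/-- Let `k` be a field finitely generated over `ℚ`, the fraction field of a finitely generated domain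
`R`, `g ∈ k[t]`, `g ≠ 0`, `F_i ∈ k[t][x]`, `e_i ≥ 0`, `D ≥ 1`, and let `θ` be an element of a finite
extension `L` of `k` such that the `F_i(θ, x)` have the same degrees as the `F_i`, their product is
separable, and the Galois group over `L` has an element all of whose cycles on its roots have a length
divisible by `gcd(2, D) D`; let `m` be the multiplicity of the root `θ` of `g`.  Then for all
`t = a/b ∈ k`, `a, b ∈ R`, outside a set of density zero, for all but `O(B² / (log B)^δ)` of the rational
numbers `t` of height at most `B`, all but `O(B / (log B)^δ)` of the integers `t` with `|t| ≤ B`, and, if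
`θ ≠ 0`, all but `O(B / (log B)^(1 + δ))` of the prime numbers `t ≤ B`, for some `δ > 0`, we have for all
finite extensions `k'` of `k` such that `D` does not divide `m [k' : k]` and all `n` divisible by `D`:
the curve `g(t) yⁿ = ∏ F_i(t, x)^(e_i)` has no point over `k'`; there are no sections over `G_k'` of the
absolute Galois group of its function field `F` over `k'`, and of the quotients of it that belong to
the extensions of `F` which contain the algebraic closure of `k'` and the roots of order `D` of the
ratios of the functions `x - ρ`, where `ρ` is a root of `∏ F_i(t, x)`; and if the `e_i` are prime to `D`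
there are no sections of the fundamental groups of the open subcurves and of the smooth curves over
`k'` that dominate them. -/
theorem result (R : Type) [CommRing R] [IsDomain R] [CharZero R] [Algebra.FiniteType ℤ R]
    (k : Type) [Field k] [Algebra R k] [IsFractionRing R k] (I : Type) [Fintype I]
    (F : I → k[X][X]) (e : I → ℕ) (g : k[X]) (hg : g ≠ 0) (L : Type) [Field L] [Algebra k L]
    [FiniteDimensional k L] (θ : L) (D : ℕ) (hD : 0 < D) (h : RamifiedAt D F θ) :
    DensityZero R (Exceptional D (mult g θ) g F e) ∧
      FewRationals (Exceptional D (mult g θ) g F e) ∧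
      (θ ≠ 0 → FewPrimes (Exceptional D (mult g θ) g F e)) := by
  obtain ⟨S, hSp, hSd, hSv⟩ := core (R := R) F e g hg L θ D hD h
  refine ⟨densityZero _ S hSp hSd fun p hp => ?_, fewRationals (R := R) _ S hSp hSd fun p hp => ?_,
    fun hθ => fewPrimes (R := R) _ S hSp hSd fun p hp => ?_⟩
  · obtain ⟨χ, Θ, -, hχ⟩ := hSv p hp
    exact ⟨χ, Θ, hχ⟩
  · obtain ⟨χ, Θ, -, hχ⟩ := hSv p hp
    exact ⟨χ, Θ, hχ⟩
  · obtain ⟨χ, Θ, hΘ, hχ⟩ := hSv p hp
    exact ⟨χ, Θ, hΘ hθ, hχ⟩

end Pool.Agent.Results.MP_8312c9_nt.SectionDegreesInFamilies
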