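import Pool.Agent.V11235.SK.Main
import Pool.Agent.TH377.LocG.Res

/-!
# Degrees of the fields with birational sections for 100% of the twisted Fermat curves

Let `k` be any field finitely generated over `ℚ`, that is, the fraction field of a domain `R` of
characteristic zero that is finitely generated as a ring.  Let `m ≥ 3`, and for `(a, b, c) ∈ R³` consider
the curves

  `C : a yⁿ = b x^M + c`,  `m ∣ M`,

for instance, if `m` divides `n`, the twisted Fermat curve `a yⁿ = b xⁿ + c zⁿ` of degree `n`.  Let
`D ≥ 1` be a number with `D ∣ m` (`D` odd) or `2 D ∣ m` (`D` even).  We prove that for 100% of the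
triples `(a, b, c)` we have for **all** these `D`, all finite extensions `k'` of `k`, all `n` divisible by
`D` and all `M` divisible by `m`: if the curve `C` has a point over `k'`, or if the absolute Galois
group of the function field of `C` over `k'` has a section over `G_k'`, or if the fundamental group of
`C` over `k'`, of an open subcurve, or of a smooth curve over `k'` that dominates `C` has a section,
then `D` divides `[k' : k]`.

In particular let `m` be odd (`D = m`).  For 100% of the triples `(a, b, c)` the degrees of all fields
over which one of the twisted Fermat curves `a yⁿ = b xⁿ + c zⁿ`, `m ∣ n`, has a point or a birational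
section are divisible by `m`.  For `n = m` this is best possible, because `a yⁿ = b xⁿ` has a solution
over the field generated by a root of order `n` of `b/a`.  So 100% of these curves satisfy the
birational section conjecture over all fields `k'` with `m ∤ [k' : k]` at once.

The set of the exceptional triples has density zero in a strong sense: for every `ε > 0` there is an
ideal `I` of `R` of finite index such that the exceptional triples lie in at most `ε #(R/I)³` residue
classes modulo `I`.

The fundamental group is described through valuations.  Let `U` be a smooth geometrically connected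
curve over `k` with function field `F`, let `Ω` be an algebraic closure of `F`, and let `F_U` be the
maximal extension of `F` inside `Ω` which is unramified over the closed points of `U`, that is, over
their local rings, which are valuation rings of `F`.  Then `π₁(U) = Gal(F_U/F)`, and the map
`π₁(U) → G_k` is the restriction of automorphisms to the algebraic closure of `k` in `Ω`.  For
`U = ∅` one gets `F_U = Ω` and the sections of `Gal(Ω/F) → G_k`.

Proof.  One finds a number field `L` and a homomorphism `P : R → L` such that for almost all primes `v`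
of `L` there is an embedding `ψ : k → L_v` with `ψ(r) ≡ P(r)` modulo `v²` for all `r ∈ R`; it induces a
discrete valuation on `k` with finite residue field.  Let `v` be such a prime of prime norm `p`,
`p ≡ 1` modulo `m`.  The triples such that `P(a)` has valuation one, `P(b)` is a unit and `-P(c)/P(b)`
is not an `ℓ`-th power modulo `v` for all prime numbers `ℓ` dividing `m` have a proportion of at least
`(1/4m)(1/p - 1/p²)`; so 100% of the triples have this property for some `v`.  For such a triple, by
Kummer theory the degrees of all irreducible factors of `P(b) x^m + P(c)` modulo `v` are divisible by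
`m`.  Let `k'` be a finite extension of `k` with `D ∤ [k' : k]`, and let `l` be a prime number with
`v_l([k' : k]) < v_l(D)`.  There is a place `w` of `k'` over the discrete valuation of `k` given by `ψ`
with `v_l(e f) ≤ v_l([k' : k])` for its ramification index `e` and residue degree `f`.  Put
`ℓ = l^(1 + v_l(e))`, a divisor of `D`.  Then `w(a) = e` is not divisible by `ℓ`, and the degrees of the
irreducible factors of `b x^m + c` over the residue field of `w` are divisible by `ℓ` or `2 ℓ`, so that
the local theorem of `MP_8312c9_nt.FactorDegrees` (library `Pool.Agent.TH377.LocG`) applies to the curve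
`a yⁿ = b x^m + c`, which is dominated by `C`.
-/

set_option autoImplicit false

open Polynomial NumberField

namespace Pool.Agent.Results.MP_8312c9_nt.TwistedFermatDegrees

section definitions

variable (k F Ω : Type) [Field k] [Field F] [Field Ω] [Algebra k F]
  [Algebra F Ω] [Algebra k Ω]

/-- The inertia group of the valuation ring `W` of `Ω`, as a subgroup of `Gal(Ω/F)`: the
automorphisms of `Ω` over `F` that map `W` onto itself and act as the identity on its residue
field. -/
noncomputable def inertia (W : ValuationSubring Ω) : Subgroup (Ω ≃ₐ[F] Ω) :=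
  (W.inertiaSubgroup F).map (W.decompositionSubgroup F).subtype

/-- `F_U`, for a set `U` of valuation rings of `F`: the elements of `Ω` fixed by the inertia groups
of all valuation rings `W` of `Ω` with `W ∩ F ∈ U`.  If `Ω` is an algebraic closure of a field `F`
of characteristic zero, this is the maximal extension of `F` in `Ω` unramified over `U`. -/
noncomputable def unramified (U : Set (ValuationSubring F)) : IntermediateField F Ω :=
  ⨅ W : {W : ValuationSubring Ω // W.comap (algebraMap F Ω) ∈ U},
    IntermediateField.fixedField (inertia F Ω W.1)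

/-- The map `τ : M → M` acts as `σ : K → K` on the elements that the fields `K` and `M` have in
common when they are regarded as subfields of `Ω` through `i` and `j`. -/
def ActsAs {K M Ω : Type} [Field K] [Field M] [Field Ω] (i : K →+* Ω) (j : M →+* Ω) (σ : K → K)
    (τ : M → M) : Prop :=
  ∀ c z, j z = i c → j (τ z) = i (σ c)

/-- Let `k ⊆ K ⊆ Ω` and `F ⊆ M ⊆ Ω` be fields.  A splitting of `Gal(M/F) → Gal(K/k)`: a continuous
homomorphism `s` from `Gal(K/k)` to `Gal(M/F)` such that `s(σ)` acts as `σ` on the elements of
`K ∩ M`. -/
structure Splitting (K M : Type) [Field K] [Field M] [Algebra k K] [Algebra F M] [Algebra K Ω]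
    [Algebra M Ω] where
  /-- the homomorphism `Gal(K/k) → Gal(M/F)` -/
  toHom : (K ≃ₐ[k] K) →* (M ≃ₐ[F] M)
  cont : Continuous toHom
  compat : ∀ σ : K ≃ₐ[k] K, ActsAs (algebraMap K Ω) (algebraMap M Ω) σ (toHom σ)

/-- The sections of `π₁(U) = Gal(F_U/F) → G_k`: the continuous homomorphisms `s` from
`G_k = Gal(k̄/k)` to `Gal(F_U/F)`, where `k̄` is the algebraic closure of `k` in `Ω`, such that
`s(σ)` acts as `σ` on the elements of `k̄`. -/
def GaloisSection (U : Set (ValuationSubring F)) : Type :=
  Splitting k F Ω (algebraicClosure k Ω) (unramified F Ω U)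

end definitions

/-- The smooth projective curve with the affine equation `a yⁿ = b x^M + c` has no point over `k`:
neither over the affine line, nor at infinity, where the points over `k` correspond to the solutions
of `a r^g = b` with `g = gcd(n, M)`. -/
def NoPoint {k : Type} [Field k] (n M : ℕ) (a b c : k) : Prop :=
  (¬ ∃ x y : k, a * y ^ n = b * x ^ M + c) ∧ ¬ ∃ r : k, a * r ^ Nat.gcd n M = b

/-- Let `F` be any field over `k` that contains a point `(x, y)` of the curve `a yⁿ = b x^M + c`, for
instance the function field of the curve, and let `Ω` be an algebraic closure of `F`.  Then for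
every set `U` of valuation rings of `F` over `k` there is no section of `π₁(U) → G_k`.  If `F` is the
function field of the curve, such `U` are given by the smooth projective curve, by all its open
subcurves, and by `∅`, where one gets the sections of the absolute Galois group of `F`. -/
def NoSection {k : Type} [Field k] (n M : ℕ) (a b c : k) : Prop :=
  ∀ (F Ω : Type) [Field F] [Field Ω] [Algebra k F] [Algebra F Ω] [Algebra k Ω]
    [IsScalarTower k F Ω] [IsAlgClosure F Ω] (x y : F) (U : Set (ValuationSubring F)),
    algebraMap k F a * y ^ n = algebraMap k F b * x ^ M + algebraMap k F c →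
      (∀ O ∈ U, ∀ c : k, algebraMap k F c ∈ O) → IsEmpty (GaloisSection k F Ω U)

/-- For all finite extensions `k'` of `k` whose degree is not divisible by `D`, all `n` divisible by `D`
and all `M` divisible by `m`, the curve `a yⁿ = b x^M + c` over `k'` has neither points nor sections. -/
def OnlyDegreesDivisible {k : Type} [Field k] (D m : ℕ) (a b c : k) : Prop :=
  ∀ (k' : Type) [Field k'] [Algebra k k'] [FiniteDimensional k k'],
    ¬ D ∣ Module.finrank k k' → ∀ n M : ℕ, D ∣ n → m ∣ M →
      NoPoint n M (algebraMap k k' a) (algebraMap k k' b) (algebraMap k k' c) ∧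
        NoSection n M (algebraMap k k' a) (algebraMap k k' b) (algebraMap k k' c)

/-- The triples `t = (a, b, c)` of elements of `R` that do not have the following property: `a`, `b` and
`c` are not zero, and for all `D ≥ 1` such that `gcd(2, D) D` divides `m`, the degrees `[k' : k]` of all
finite extensions `k'` of `k` over which there are points or sections for the curves
`a yⁿ = b x^M + c`, `D ∣ n`, `m ∣ M`, are divisible by `D`. -/
def Exceptional (R : Type) [CommRing R] (k : Type) [Field k] [Algebra R k] (m : ℕ) :
    Set (Fin 3 → R) :=
  {t | ¬ (algebraMap R k (t 0) ≠ 0 ∧ algebraMap R k (t 1) ≠ 0 ∧ algebraMap R k (t 2) ≠ 0 ∧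
    ∀ D : ℕ, 0 < D → Nat.gcd 2 D * D ∣ m →
      OnlyDegreesDivisible D m (algebraMap R k (t 0)) (algebraMap R k (t 1))
        (algebraMap R k (t 2)))}

/-- Density zero: for every `ε > 0` there is an ideal `I` of `R` of finite index such that `E` lies
in at most `ε #(R/I)ᴺ` residue classes modulo `I`. -/
def DensityZero {R : Type} [CommRing R] {N : ℕ} (E : Set (Fin N → R)) : Prop :=
  ∀ ε : ℝ, 0 < ε → ∃ I : Ideal R, Finite (R ⧸ I) ∧
    (Set.ncard ((fun (t : Fin N → R) i => Ideal.Quotient.mk I (t i)) '' E) : ℝ) ≤
      ε * (Nat.card (R ⧸ I) : ℝ) ^ N

lemma nothing_of_data {L : Type} [Field L] [CharZero L] (D m : ℕ) (hm0 : 0 < m) (a b c : L)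
    (hb : b ≠ 0)
    (h : Pool.Agent.V11235.SH.Data D L a (fun _ : Unit => (C b * X ^ m + C c : L[X]))) (n M : ℕ)
    (hn : D ∣ n) (hM : m ∣ M) : NoPoint n M a b c ∧ NoSection n M a b c := by
  obtain ⟨f, hfdef⟩ : ∃ f : L[X], f = C b * X ^ m + C c := ⟨_, rfl⟩
  rw [← hfdef] at h
  obtain ⟨ℓ, hℓ0, hℓD, A, _, _, _, _, _, h, hlc, hmap, hs, hf, ϖ, t, m', hϖ, ht, hm, ha⟩ := h
  obtain ⟨e, he⟩ : ∃ e : Unit → ℕ, e = fun _ => 1 := ⟨_, rfl⟩
  have hρ : Function.Surjective (IsLocalRing.residue A) := IsLocalRing.residue_surjective
  have h1 : (∏ i, h i ^ e i).map (algebraMap A L) = f := by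
    rw [Finset.univ_unique, Finset.prod_singleton, he]
    simp only [pow_one]
    exact hmap ()
  have hℓn : ℓ ∣ n := hℓD.trans hn
  have hflc : f.leadingCoeff = b := by
    rw [hfdef]
    exact Pool.Agent.V11235.SK.binom_lc b c hb m hm0
  have hfdeg : f.natDegree = m := by
    rw [hfdef]
    exact Pool.Agent.V11235.SK.binom_natDegree b c hb m
  obtain ⟨M', rfl⟩ := hM
  refine ⟨⟨?_, ?_⟩, ?_⟩
  · rintro ⟨x, y, hxy⟩
    refine Pool.Agent.TH377.LocG.res_P _ hρ ℓ hℓ0 h e hlc hs hf ϖ hϖ a t ht m' hm ha n hℓn (x ^ M') y ?_
    rw [h1, hxy, hfdef, eval_add, eval_mul, eval_pow, eval_X, eval_C, eval_C, ← pow_mul,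
      mul_comm m M']
  · rintro ⟨r, hr⟩
    obtain ⟨g, hg⟩ := Nat.gcd_dvd_gcd_mul_right_right n m M'
    refine Pool.Agent.TH377.LocG.res_inf _ hρ ℓ hℓ0 h e hlc hs hf ϖ hϖ a t ht m' hm ha n hℓn
      (r ^ g) ?_
    rw [h1, hflc, hfdeg, ← pow_mul, mul_comm g, ← hg]
    exact hr
  · intro F Ω _ _ _ _ _ _ _ x y U hxy hU
    have hcl : IsAlgClosed Ω := IsAlgClosure.isAlgClosed F
    have halg : Algebra.IsAlgebraic F Ω := IsAlgClosure.isAlgebraic
    have h := Pool.Agent.TH377.LocG.res_U (F := F) (Ω := Ω) _ hρ ℓ hℓ0 h e hlc hs hf ϖ hϖ a t ht m'
      hm ha n hℓn (fun i => by rw [he]; exact Nat.coprime_one_right ℓ) U hU (x ^ M') y (by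
        rw [h1, hxy, hfdef, map_add, map_mul, map_pow, aeval_X, aeval_C, aeval_C, ← pow_mul,
          mul_comm m M'])
    exact ⟨fun s => h.false ⟨s.toHom, s.cont, s.compat⟩⟩

/-- Let `R` be a domain of characteristic zero that is finitely generated as a ring, with fraction
field `k`; so `k` is any field finitely generated over `ℚ`.  Let `m ≥ 3`.  For all triples `(a, b, c)` of
elements of `R` outside a set of density zero, `a`, `b`, `c` are not zero, and for all `D ≥ 1` such that
`gcd(2, D) D` divides `m`, all finite extensions `k'` of `k` whose degree is not divisible by `D`, all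
`n` divisible by `D` and all `M` divisible by `m`: the smooth projective curve over `k'` with the affine
equation `a yⁿ = b x^M + c` has no point over `k'`, the absolute Galois group of its function field over
`k'` has no section over `G_k'`, and there are no sections of the fundamental groups of the curve over
`k'`, of its open subcurves and of the smooth curves over `k'` that dominate them. -/
theorem result (R : Type) [CommRing R] [IsDomain R] [CharZero R] [Algebra.FiniteType ℤ R]
    (k : Type) [Field k] [Algebra R k] [IsFractionRing R k] (m : ℕ) (hm : 3 ≤ m) :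
    DensityZero (Exceptional R k m) := by
  have hcz : CharZero k := charZero_of_injective_algebraMap (IsFractionRing.injective R k)
  intro ε hε
  obtain ⟨I, hI, hle⟩ := Pool.Agent.V11235.SK.density_diag (R := R) (k := k) m hm ε hε
  refine ⟨I, hI, le_trans ?_ hle⟩
  have hsub : (Exceptional R k m : Set (Fin 3 → R)) ⊆
      {c : Fin 3 → R | ¬ Pool.Agent.V11235.SK.GoodB k m c} := by
    intro t ht hgood
    obtain ⟨h1, h2, h3, -, h4⟩ := hgood
    apply ht
    refine ⟨h1, h2, h3, fun D hD hDm K' _ _ _ hK' n M hn hM => ?_⟩
    have hcz' : CharZero K' := charZero_of_injective_algebraMap (algebraMap k K').injective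
    have h5 := h4 D hD.ne' hDm K' (by
      intro h6
      apply hK'
      exact_mod_cast h6)
    simp only [Pool.Agent.V11235.SK.binom_map] at h5
    exact nothing_of_data D m (by omega) _ _ _ ((_root_.map_ne_zero _).2 h2) h5 n M hn hM
  exact_mod_cast Set.ncard_le_ncard (Set.image_mono hsub) (Set.toFinite _)

end Pool.Agent.Results.MP_8312c9_nt.TwistedFermatDegrees
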